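import Pool.Agent.H798.BV.Stm3

set_option autoImplicit false

/-!
# Project BV (helper798, MP_f0bc87_an), task THQ: the mean of `|w| |a - w|⁻¹` stays away from one

`NN p s ρ ℓ = (1 - 1/p - 1/s) + ρ^p/p + ℓ^s/s - ρ ℓ` is nonnegative, positive for `(ρ, ℓ) ≠ (1, 1)`, and it
tends to infinity with `ρ` or `ℓ`.
-/

namespace Pool.Agent.H355.BV

open Pool.Agent.H798.BV

/-- the defect in Young's inequality -/
noncomputable def NN (p s ρ l : ℝ) : ℝ := (1 - 1 / p - 1 / s) + ρ ^ p / p + l ^ s / s - ρ * l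

/-- strict positivity for positive arguments -/
theorem NN_pos' {p s : ℝ} (hp : 1 < p) (hs : 1 < s) (hps : 1 / p + 1 / s < 1) {ρ l : ℝ}
    (hρ : 0 < ρ) (hl : 0 < l) : 0 ≤ NN p s ρ l ∧ ((ρ ≠ 1 ∨ l ≠ 1) → 0 < NN p s ρ l) := by
  have hp0 : 0 < p := by linarith
  have hs0 : 0 < s := by linarith
  obtain ⟨x, hx⟩ : ∃ x, x = Real.log ρ := ⟨_, rfl⟩
  obtain ⟨y, hy⟩ : ∃ y, y = Real.log l := ⟨_, rfl⟩
  have e1 : ρ ^ p = Real.exp (p * x) := by
    rw [Real.rpow_def_of_pos hρ, hx, mul_comm]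
  have e2 : l ^ s = Real.exp (s * y) := by
    rw [Real.rpow_def_of_pos hl, hy, mul_comm]
  have e3 : ρ * l = Real.exp (x + y) := by
    rw [Real.exp_add, hx, hy, Real.exp_log hρ, Real.exp_log hl]
  have hfac : NN p s ρ l = Real.exp (x + y) * ((1 - 1 / p - 1 / s) * Real.exp (-(x + y)) +
      Real.exp (p * x - (x + y)) / p + Real.exp (s * y - (x + y)) / s - 1) := by
    have e0 : Real.exp (x + y) * Real.exp (-(x + y)) = 1 := by
      rw [← Real.exp_add, add_neg_cancel, Real.exp_zero]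
    have e4 : Real.exp (x + y) * Real.exp (p * x - (x + y)) = Real.exp (p * x) := by
      rw [← Real.exp_add]; congr 1; ring
    have e5 : Real.exp (x + y) * Real.exp (s * y - (x + y)) = Real.exp (s * y) := by
      rw [← Real.exp_add]; congr 1; ring
    unfold NN
    rw [e1, e2, e3]
    linear_combination (-(1 - 1 / p - 1 / s)) * e0 - (1 / p) * e4 - (1 / s) * e5
  have hr : 0 < 1 - 1 / p - 1 / s := by linarith
  have hip : 0 < 1 / p := by positivity
  have his : 0 < 1 / s := by positivity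
  have a1 := Real.add_one_le_exp (-(x + y))
  have a2 := Real.add_one_le_exp (p * x - (x + y))
  have a3 := Real.add_one_le_exp (s * y - (x + y))
  have hid : (1 - 1 / p - 1 / s) * (-(x + y) + 1) + (p * x - (x + y) + 1) / p +
      (s * y - (x + y) + 1) / s - 1 = 0 := by
    field_simp
    ring
  constructor
  · rw [hfac]
    refine mul_nonneg (Real.exp_pos _).le ?_
    have b1 := mul_le_mul_of_nonneg_left a1 hr.le
    have b2 := div_le_div_of_nonneg_right a2 hp0.le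
    have b3 := div_le_div_of_nonneg_right a3 hs0.le
    linarith
  · intro hne
    rw [hfac]
    refine mul_pos (Real.exp_pos _) ?_
    have b1 := mul_le_mul_of_nonneg_left a1 hr.le
    have b2 := div_le_div_of_nonneg_right a2 hp0.le
    have b3 := div_le_div_of_nonneg_right a3 hs0.le
    by_cases h1 : x + y = 0
    · by_cases h2 : p * x - (x + y) = 0
      · exfalso
        rw [h1, sub_zero] at h2
        have hx0 : x = 0 := (mul_eq_zero.1 h2).resolve_left hp0.ne'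
        have hy0 : y = 0 := by rw [hx0, zero_add] at h1; exact h1
        have hρ1 : ρ = 1 := Real.eq_one_of_pos_of_log_eq_zero hρ (by rw [← hx, hx0])
        have hl1 : l = 1 := Real.eq_one_of_pos_of_log_eq_zero hl (by rw [← hy, hy0])
        rcases hne with h | h
        · exact h hρ1
        · exact h hl1
      · have b2' := div_lt_div_of_pos_right (Real.add_one_lt_exp h2) hp0
        linarith
    · have h1' : -(x + y) ≠ 0 := fun h => h1 (by linarith)
      have b1' := mul_lt_mul_of_pos_left (Real.add_one_lt_exp h1') hr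
      linarith

theorem NN_nonneg {p s : ℝ} (hp : 1 < p) (hs : 1 < s) (hps : 1 / p + 1 / s < 1) {ρ l : ℝ}
    (hρ : 0 ≤ ρ) (hl : 0 ≤ l) : 0 ≤ NN p s ρ l := by
  have hp0 : 0 < p := by linarith
  have hs0 : 0 < s := by linarith
  rcases hρ.eq_or_lt with h | h
  · subst h
    unfold NN
    rw [Real.zero_rpow hp0.ne', zero_mul]
    have : 0 ≤ l ^ s / s := by positivity
    simp only [zero_div]
    linarith
  · rcases hl.eq_or_lt with h' | h'
    · subst h'
      unfold NN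
      rw [Real.zero_rpow hs0.ne', mul_zero]
      have : 0 ≤ ρ ^ p / p := by positivity
      simp only [zero_div]
      linarith
    · exact (NN_pos' hp hs hps h h').1

theorem NN_pos {p s : ℝ} (hp : 1 < p) (hs : 1 < s) (hps : 1 / p + 1 / s < 1) {ρ l : ℝ}
    (hρ : 0 ≤ ρ) (hl : 0 ≤ l) (hne : ρ ≠ 1 ∨ l ≠ 1) : 0 < NN p s ρ l := by
  have hp0 : 0 < p := by linarith
  have hs0 : 0 < s := by linarith
  rcases hρ.eq_or_lt with h | h
  · subst h
    unfold NN
    rw [Real.zero_rpow hp0.ne', zero_mul]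
    have : 0 ≤ l ^ s / s := by positivity
    simp only [zero_div]
    linarith
  · rcases hl.eq_or_lt with h' | h'
    · subst h'
      unfold NN
      rw [Real.zero_rpow hs0.ne', mul_zero]
      have : 0 ≤ ρ ^ p / p := by positivity
      simp only [zero_div]
      linarith
    · exact (NN_pos' hp hs hps h h').2 hne

/-- coercivity -/
theorem NN_coer {p s : ℝ} (hp : 1 < p) (hs : 1 < s) (hps : 1 / p + 1 / s < 1) :
    ∃ C : ℝ, 0 < C ∧ ∀ ρ l : ℝ, 0 ≤ ρ → 0 ≤ l →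
      ρ ^ p / p + l ^ s / s ≤ 2 * NN p s ρ l + C := by
  have hp0 : 0 < p := by linarith
  have hs0 : 0 < s := by linarith
  have hr : 0 < 1 - 1 / p - 1 / s := by linarith
  obtain ⟨r, hrd⟩ : ∃ r, r = 1 - 1 / p - 1 / s := ⟨_, rfl⟩
  rw [← hrd] at hr
  obtain ⟨T, hT⟩ : ∃ T : ℝ, T = (2 : ℝ) ^ ((1 / p + 1 / s) / r) := ⟨_, rfl⟩
  have hT0 : 0 < T := by rw [hT]; positivity
  refine ⟨2 * r * T, by positivity, fun ρ l hρ hl => ?_⟩
  have h1 := Real.geom_mean_le_arith_mean3_weighted (w₁ := 1 / p) (w₂ := 1 / s) (w₃ := r)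
    (p₁ := ρ ^ p / 2) (p₂ := l ^ s / 2) (p₃ := T) (by positivity) (by positivity) hr.le
    (by positivity) (by positivity) hT0.le (by rw [hrd]; ring)
  have h2 : (ρ ^ p / 2) ^ (1 / p) * (l ^ s / 2) ^ (1 / s) * T ^ r = ρ * l := by
    rw [Real.div_rpow (by positivity) (by norm_num), Real.div_rpow (by positivity) (by norm_num),
      ← Real.rpow_mul hρ, ← Real.rpow_mul hl, mul_one_div_cancel hp0.ne',
      mul_one_div_cancel hs0.ne', Real.rpow_one, Real.rpow_one, hT, ← Real.rpow_mul (by norm_num),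
      div_mul_cancel₀ _ hr.ne', Real.rpow_add (by norm_num)]
    have a1 : (2 : ℝ) ^ (1 / p) ≠ 0 := by positivity
    have a2 : (2 : ℝ) ^ (1 / s) ≠ 0 := by positivity
    field_simp
  rw [h2] at h1
  have h3 : NN p s ρ l = r + ρ ^ p / p + l ^ s / s - ρ * l := by
    unfold NN; rw [hrd]
  rw [h3]
  have h4 : 1 / p * (ρ ^ p / 2) = (ρ ^ p / p) / 2 := by ring
  have h5 : 1 / s * (l ^ s / 2) = (l ^ s / s) / 2 := by ring
  rw [h4, h5] at h1
  nlinarith

theorem NN_cont (p s : ℝ) (hp : 0 < p) (hs : 0 < s) :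
    Continuous (fun x : ℝ × ℝ => NN p s x.1 x.2) := by
  unfold NN
  have h1 : Continuous (fun x : ℝ × ℝ => x.1 ^ p) :=
    (Real.continuous_rpow_const hp.le).comp continuous_fst
  have h2 : Continuous (fun x : ℝ × ℝ => x.2 ^ s) :=
    (Real.continuous_rpow_const hs.le).comp continuous_snd
  fun_prop

/-- lower bound away from `(1, 1)` -/
theorem NN_far {p s : ℝ} (hp : 1 < p) (hs : 1 < s) (hps : 1 / p + 1 / s < 1) {η : ℝ}
    (hη : 0 < η) : ∃ μ : ℝ, 0 < μ ∧ ∀ ρ l : ℝ, 0 ≤ ρ → 0 ≤ l → (η ≤ |ρ - 1| ∨ η ≤ |l - 1|) →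
      μ ≤ NN p s ρ l := by
  have hp0 : 0 < p := by linarith
  have hs0 : 0 < s := by linarith
  obtain ⟨C, hC, hco⟩ := NN_coer hp hs hps
  -- outside a large square
  obtain ⟨R, hR1, hRp, hRs⟩ : ∃ R : ℝ, 1 ≤ R ∧ p * (2 + C) ≤ R ∧ s * (2 + C) ≤ R :=
    ⟨max 1 (max (p * (2 + C)) (s * (2 + C))), le_max_left _ _,
      (le_max_left _ _).trans (le_max_right _ _), (le_max_right _ _).trans (le_max_right _ _)⟩
  have hbigρ : ∀ ρ l : ℝ, R ≤ ρ → 0 ≤ l → 1 ≤ NN p s ρ l := by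
    intro ρ l hρ hl
    have h1 := hco ρ l (by linarith) hl
    have h2 : ρ ≤ ρ ^ p := Real.self_le_rpow_of_one_le (by linarith) hp.le
    have h3 : 2 + C ≤ ρ ^ p / p := by
      rw [le_div_iff₀ hp0]
      linarith
    have h4 : 0 ≤ l ^ s / s := by positivity
    linarith
  have hbigl : ∀ ρ l : ℝ, 0 ≤ ρ → R ≤ l → 1 ≤ NN p s ρ l := by
    intro ρ l hρ hl
    have h1 := hco ρ l hρ (by linarith)
    have h2 : l ≤ l ^ s := Real.self_le_rpow_of_one_le (by linarith) hs.le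
    have h3 : 2 + C ≤ l ^ s / s := by
      rw [le_div_iff₀ hs0]
      linarith
    have h4 : 0 ≤ ρ ^ p / p := by positivity
    linarith
  -- the compact part
  let S : Set (ℝ × ℝ) := (Set.Icc 0 R ×ˢ Set.Icc 0 R) ∩
    ({x | η ≤ |x.1 - 1|} ∪ {x | η ≤ |x.2 - 1|})
  have hScl : IsClosed ({x : ℝ × ℝ | η ≤ |x.1 - 1|} ∪ {x | η ≤ |x.2 - 1|}) := by
    refine IsClosed.union (isClosed_le continuous_const ?_) (isClosed_le continuous_const ?_)
    · fun_prop
    · fun_prop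
  have hS : IsCompact S := (isCompact_Icc.prod isCompact_Icc).inter_right hScl
  have hmin : ∃ μ : ℝ, 0 < μ ∧ ∀ x ∈ S, μ ≤ NN p s x.1 x.2 := by
    rcases S.eq_empty_or_nonempty with h | h
    · exact ⟨1, one_pos, fun x hx => by rw [h] at hx; exact absurd hx (Set.notMem_empty x)⟩
    · obtain ⟨x, hx, hmin⟩ := hS.exists_isMinOn h (NN_cont p s hp0 hs0).continuousOn
      refine ⟨NN p s x.1 x.2, ?_, fun y hy => hmin hy⟩
      refine NN_pos hp hs hps hx.1.1.1 hx.1.2.1 ?_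
      rcases hx.2 with h1 | h1
      · left
        intro h2
        rw [Set.mem_ofPred_eq, h2, sub_self, abs_zero] at h1
        linarith
      · right
        intro h2
        rw [Set.mem_ofPred_eq, h2, sub_self, abs_zero] at h1
        linarith
  obtain ⟨μ, hμ, hμS⟩ := hmin
  refine ⟨min μ 1, lt_min hμ one_pos, fun ρ l hρ hl hfar => ?_⟩
  rcases le_or_gt R ρ with h1 | h1
  · exact (min_le_right _ _).trans (hbigρ ρ l h1 hl)
  rcases le_or_gt R l with h2 | h2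
  · exact (min_le_right _ _).trans (hbigl ρ l hρ h2)
  exact (min_le_left _ _).trans (hμS (ρ, l) ⟨⟨⟨hρ, h1.le⟩, ⟨hl, h2.le⟩⟩, hfar⟩)

/-- the real part from the two distances -/
theorem re_eq (a : ℝ) (w : ℂ) : ‖(a : ℂ) - w‖ ^ 2 = a ^ 2 - 2 * a * w.re + ‖w‖ ^ 2 := by
  rw [← Complex.normSq_eq_norm_sq, ← Complex.normSq_eq_norm_sq, Complex.normSq_apply,
    Complex.normSq_apply]
  simp
  ring

/-- the pointwise lower bound -/
theorem key {p s : ℝ} (hp : 1 < p) (hs : 1 < s) (hps : 1 / p + 1 / s < 1) {a₀ : ℝ}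
    (ha₀ : 0 < a₀) : ∃ K : ℝ, 0 < K ∧ ∀ a : ℝ, a₀ ≤ a → a ≤ 4 → ∀ w : ℂ, w ≠ a →
      a / 4 - K * NN p s ‖w‖ ‖((a : ℂ) - w)⁻¹‖ ≤ ‖w‖ ^ (p - 2) * w.re := by
  have hp0 : 0 < p := by linarith
  have hs0 : 0 < s := by linarith
  obtain ⟨C, hC, hco⟩ := NN_coer hp hs hps
  -- a neighbourhood of one
  obtain ⟨η, hη0, hη⟩ : ∃ η : ℝ, 0 < η ∧ ∀ x : ℝ, |x - 1| < η →
      |x ^ 2 - 1| < a₀ ^ 2 / 8 ∧ 2 / 3 ≤ x ^ (p - 2) ∧ |x⁻¹ ^ 2 - 1| < a₀ ^ 2 / 8 := by
    have c1 : ContinuousAt (fun x : ℝ => x ^ 2) 1 := by fun_prop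
    have c2 : ContinuousAt (fun x : ℝ => x ^ (p - 2)) 1 :=
      Real.continuousAt_rpow_const 1 (p - 2) (Or.inl one_ne_zero)
    have c3 : ContinuousAt (fun x : ℝ => x⁻¹ ^ 2) 1 :=
      (continuousAt_inv₀ one_ne_zero).pow 2
    obtain ⟨η1, h10, h1⟩ := Metric.continuousAt_iff.1 c1 (a₀ ^ 2 / 8) (by positivity)
    obtain ⟨η2, h20, h2⟩ := Metric.continuousAt_iff.1 c2 (1 / 3) (by norm_num)
    obtain ⟨η3, h30, h3⟩ := Metric.continuousAt_iff.1 c3 (a₀ ^ 2 / 8) (by positivity)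
    refine ⟨min η1 (min η2 η3), lt_min h10 (lt_min h20 h30), fun x hx => ⟨?_, ?_, ?_⟩⟩
    · have := h1 (x := x) (by rw [Real.dist_eq]; exact hx.trans_le (min_le_left _ _))
      rw [Real.dist_eq, one_pow] at this
      exact this
    · have := h2 (x := x) (by
        rw [Real.dist_eq]
        exact hx.trans_le ((min_le_right _ _).trans (min_le_left _ _)))
      rw [Real.dist_eq, Real.one_rpow] at this
      have := (abs_lt.1 this).1
      linarith
    · have := h3 (x := x) (by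
        rw [Real.dist_eq]
        exact hx.trans_le ((min_le_right _ _).trans (min_le_right _ _)))
      rw [Real.dist_eq, inv_one, one_pow] at this
      exact this
  obtain ⟨μ, hμ0, hμ⟩ := NN_far hp hs hps hη0
  refine ⟨(2 + p * C) / μ + 2 * p, by positivity, fun a ha ha4 w hw => ?_⟩
  have ha0 : 0 < a := by linarith
  have hρ0 := norm_nonneg w
  have hl0 := norm_nonneg ((a : ℂ) - w)⁻¹
  have hN0 := NN_nonneg hp hs hps hρ0 hl0
  by_cases hfar : η ≤ |‖w‖ - 1| ∨ η ≤ |‖((a : ℂ) - w)⁻¹‖ - 1|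
  · have hN := hμ _ _ hρ0 hl0 hfar
    have h1 : ‖w‖ ^ p / p ≤ 2 * NN p s ‖w‖ ‖((a : ℂ) - w)⁻¹‖ + C := by
      have h2 := hco _ _ hρ0 hl0
      have h3 : 0 ≤ ‖((a : ℂ) - w)⁻¹‖ ^ s / s := by positivity
      linarith
    rw [div_le_iff₀ hp0] at h1
    have h4 : -(1 + ‖w‖ ^ p) ≤ ‖w‖ ^ (p - 2) * w.re := by
      rcases hρ0.eq_or_lt with h | h
      · have hw0 : w = 0 := norm_eq_zero.1 h.symm
        rw [hw0]
        simp only [Complex.zero_re, mul_zero, norm_zero]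
        rw [Real.zero_rpow hp0.ne']
        norm_num
      · have h2 : |w.re| ≤ ‖w‖ := Complex.abs_re_le_norm w
        have h3 : ‖w‖ ^ (p - 2) * ‖w‖ = ‖w‖ ^ (p - 1) := by
          nth_rewrite 2 [← Real.rpow_one ‖w‖]
          rw [← Real.rpow_add h]
          congr 1
          ring
        have h4 : ‖w‖ ^ (p - 1) ≤ 1 + ‖w‖ ^ p := by
          rcases le_or_gt ‖w‖ 1 with h5 | h5
          · have := Real.rpow_le_one hρ0 h5 (show 0 ≤ p - 1 by linarith)
            have : 0 ≤ ‖w‖ ^ p := by positivity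
            linarith
          · have := Real.rpow_le_rpow_of_exponent_le h5.le (show p - 1 ≤ p by linarith)
            linarith
        have h5 : 0 ≤ ‖w‖ ^ (p - 2) := Real.rpow_nonneg hρ0 _
        have h6 : ‖w‖ ^ (p - 2) * (-‖w‖) ≤ ‖w‖ ^ (p - 2) * w.re :=
          mul_le_mul_of_nonneg_left (by linarith [(abs_le.1 h2).1]) h5
        linarith
    generalize NN p s ‖w‖ ‖((a : ℂ) - w)⁻¹‖ = N at *
    have h5 : (2 + p * C) ≤ (2 + p * C) / μ * N := by
      rw [div_mul_eq_mul_div, le_div_iff₀ hμ0]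
      exact mul_le_mul_of_nonneg_left hN (by positivity)
    have h6 : ((2 + p * C) / μ + 2 * p) * N = (2 + p * C) / μ * N + 2 * p * N := by ring
    rw [h6]
    nlinarith
  · push Not at hfar
    obtain ⟨a1, a2, -⟩ := hη _ hfar.1
    obtain ⟨-, -, a3⟩ := hη _ hfar.2
    have hL : (‖((a : ℂ) - w)⁻¹‖⁻¹) ^ 2 = a ^ 2 - 2 * a * w.re + ‖w‖ ^ 2 := by
      rw [norm_inv, inv_inv, re_eq]
    rw [hL] at a3
    have b1 := (abs_lt.1 a1).1
    have b3 := (abs_lt.1 a3).2
    have ha2 : a₀ ^ 2 ≤ a ^ 2 := pow_le_pow_left₀ ha₀.le ha 2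
    have h7 : 3 * a / 8 ≤ w.re := by
      have h8 : 3 / 4 * a ^ 2 ≤ 2 * a * w.re := by linarith
      have h9 : a * (3 * a / 8) ≤ a * w.re := by nlinarith
      exact le_of_mul_le_mul_left h9 ha0
    have h8 : 2 / 3 * (3 * a / 8) ≤ ‖w‖ ^ (p - 2) * w.re :=
      mul_le_mul a2 h7 (by positivity) (by linarith)
    have h9 : 0 ≤ ((2 + p * C) / μ + 2 * p) * NN p s ‖w‖ ‖((a : ℂ) - w)⁻¹‖ := by positivity
    linarith

theorem t_THQ (hB2 : S_B2Q) : S_THQ := by
  intro p s hp hs hps β K hβ hK a₀ ha₀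
  have hp0 : 0 < p := by linarith
  have hs0 : 0 < s := by linarith
  obtain ⟨K₁, hK₁, hkey⟩ := key hp hs hps ha₀
  obtain ⟨μ, hμ0, hμ⟩ := NN_far hp hs hps (η := 1 / 2) (by norm_num)
  obtain ⟨t, ht0, ht1, htp⟩ : ∃ t : ℝ, 0 < t ∧ t ≤ 1 ∧ K * t ^ β ≤ p * a₀ / 8 * t := by
    have hb : 0 < β - 1 := by linarith
    have hq : 0 < p * a₀ / (8 * K) := by positivity
    refine ⟨min 1 ((p * a₀ / (8 * K)) ^ (1 / (β - 1))), lt_min one_pos (by positivity),
      min_le_left _ _, ?_⟩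
    obtain ⟨t, ht⟩ : ∃ t, t = min 1 ((p * a₀ / (8 * K)) ^ (1 / (β - 1))) := ⟨_, rfl⟩
    rw [← ht]
    have ht0 : 0 < t := by rw [ht]; exact lt_min one_pos (by positivity)
    have h1 : t ^ (β - 1) ≤ p * a₀ / (8 * K) := by
      have h2 : t ≤ (p * a₀ / (8 * K)) ^ (1 / (β - 1)) := by rw [ht]; exact min_le_right _ _
      have h3 := Real.rpow_le_rpow ht0.le h2 hb.le
      rwa [← Real.rpow_mul hq.le, one_div, inv_mul_cancel₀ hb.ne', Real.rpow_one] at h3
    have h4 : t ^ β = t ^ (β - 1) * t := by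
      nth_rewrite 3 [← Real.rpow_one t]
      rw [← Real.rpow_add ht0]
      congr 1
      ring
    rw [h4]
    have h5 : K * t ^ (β - 1) ≤ p * a₀ / 8 := by
      calc K * t ^ (β - 1) ≤ K * (p * a₀ / (8 * K)) := mul_le_mul_of_nonneg_left h1 hK.le
        _ = p * a₀ / 8 := by field_simp
    nlinarith
  set δ₂ : ℝ := t * a₀ / (8 * (1 + t * K₁)) with hδ₂
  have hδ₂0 : 0 < δ₂ := by positivity
  refine ⟨min μ δ₂, lt_min hμ0 hδ₂0, ?_⟩
  intro a ha m w hw hl2 hsum0 hc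
  have ha0 : 0 < a := by linarith
  have hm0 : (0 : ℝ) ≤ m := by positivity
  set D : ℝ := m - ∑ k, ‖w k‖ * ‖((a : ℂ) - w k)⁻¹‖ with hD
  set SN : ℝ := ∑ k, NN p s ‖w k‖ ‖((a : ℂ) - w k)⁻¹‖ with hSN
  have hSNe : SN = m * (1 - 1 / p - 1 / s) + (∑ k, ‖w k‖ ^ p) / p +
      (∑ k, ‖((a : ℂ) - w k)⁻¹‖ ^ s) / s - ∑ k, ‖w k‖ * ‖((a : ℂ) - w k)⁻¹‖ := by
    rw [hSN]
    unfold NN
    rw [Finset.sum_sub_distrib, Finset.sum_add_distrib, Finset.sum_add_distrib,
      ← Finset.sum_div, ← Finset.sum_div]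
    simp
    ring
  have hSN0 : 0 ≤ SN := by
    rw [hSN]
    exact Finset.sum_nonneg fun k _ => NN_nonneg hp hs hps (norm_nonneg _) (norm_nonneg _)
  have hmp : (m : ℝ) * (1 - 1 / p - 1 / s) = m - m / p - m / s := by ring
  have h2s : (∑ k, ‖((a : ℂ) - w k)⁻¹‖ ^ s) / s ≤ m / s :=
    div_le_div_of_nonneg_right hl2 hs0.le
  have hSND : SN ≤ D := by
    have h2 : (∑ k, ‖w k‖ ^ p) / p ≤ m / p := div_le_div_of_nonneg_right hsum0 hp0.le
    rw [hSNe, hD, hmp]
    linarith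
  rcases le_or_gt 4 a with h4 | h4
  · -- a ≥ 4
    have hpt : ∀ k, μ ≤ NN p s ‖w k‖ ‖((a : ℂ) - w k)⁻¹‖ := by
      intro k
      refine hμ _ _ (norm_nonneg _) (norm_nonneg _) ?_
      rcases le_or_gt 2 ‖w k‖ with h | h
      · left
        rw [abs_of_nonneg (by linarith)]
        linarith
      · right
        have h5 : 2 ≤ ‖(a : ℂ) - w k‖ := by
          have h2 := norm_sub_norm_le (a : ℂ) (w k)
          rw [Complex.norm_real, Real.norm_eq_abs, abs_of_pos ha0] at h2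
          linarith
        have h6 : ‖((a : ℂ) - w k)⁻¹‖ ≤ 1 / 2 := by
          rw [norm_inv, one_div]
          exact inv_anti₀ (by norm_num) h5
        rw [abs_sub_comm, abs_of_nonneg (by linarith)]
        linarith
    have h1 : μ * m ≤ SN := by
      calc μ * m = ∑ _k : Fin m, μ := by
            simp
            ring
        _ ≤ SN := Finset.sum_le_sum fun k _ => hpt k
    have h6 : ∑ k, ‖w k‖ * ‖((a : ℂ) - w k)⁻¹‖ ≤ (1 - μ) * m := by
      linarith
    refine h6.trans ?_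
    exact mul_le_mul_of_nonneg_right (by linarith [min_le_left μ δ₂]) hm0
  · -- a₀ ≤ a ≤ 4
    have hlow : m - p * D ≤ ∑ k, ‖w k‖ ^ p := by
      have h6 : m / p - D ≤ (∑ k, ‖w k‖ ^ p) / p := by
        rw [hSNe, hmp] at hSN0
        rw [hD]
        linarith
      rw [le_div_iff₀ hp0] at h6
      have h7 : (m / p - D) * p = m - p * D := by
        field_simp
      linarith
    have hc1 := hc t ht0.le ht1
    have hB : ∑ k, (‖w k‖ ^ p + p * (t * (‖w k‖ ^ (p - 2) * (w k).re))) ≤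
        ∑ k, ‖w k + t‖ ^ p := by
      refine Finset.sum_le_sum (fun k _ => ?_)
      have h6 := hB2 p hp (w k + t) (w k)
      rw [show w k + (t : ℂ) - w k = (t : ℂ) by ring] at h6
      have h7 : ((starRingEnd ℂ) (chi p (w k)) * (t : ℂ)).re =
          t * (‖w k‖ ^ (p - 2) * (w k).re) := by
        unfold chi
        rw [map_mul, Complex.conj_ofReal]
        simp only [Complex.mul_re, Complex.mul_im, Complex.ofReal_re, Complex.ofReal_im,
          Complex.conj_re, Complex.conj_im]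
        ring
      rw [h7] at h6
      exact h6
    have hkeysum : m * (a / 4) - K₁ * SN ≤ ∑ k, ‖w k‖ ^ (p - 2) * (w k).re := by
      calc m * (a / 4) - K₁ * SN = ∑ k, (a / 4 - K₁ * NN p s ‖w k‖ ‖((a : ℂ) - w k)⁻¹‖) := by
            rw [Finset.sum_sub_distrib, ← Finset.mul_sum, ← hSN]
            simp
        _ ≤ _ := Finset.sum_le_sum (fun k _ => hkey a ha h4.le (w k) (hw k))
    rw [Finset.sum_add_distrib, ← Finset.mul_sum, ← Finset.mul_sum] at hB
    have h8 : (m : ℝ) * (a₀ / 4) - K₁ * D ≤ ∑ k, ‖w k‖ ^ (p - 2) * (w k).re := by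
      have h9 : (m : ℝ) * (a₀ / 4) ≤ m * (a / 4) :=
        mul_le_mul_of_nonneg_left (by linarith) hm0
      have h10 : K₁ * SN ≤ K₁ * D := mul_le_mul_of_nonneg_left hSND hK₁.le
      linarith
    have h9 : p * (t * (m * (a₀ / 4) - K₁ * D)) ≤
        p * (t * ∑ k, ‖w k‖ ^ (p - 2) * (w k).re) :=
      mul_le_mul_of_nonneg_left (mul_le_mul_of_nonneg_left h8 ht0.le) hp0.le
    have h10 : m - p * D + p * (t * (m * (a₀ / 4) - K₁ * D)) ≤ m * (1 + p * a₀ / 8 * t) := by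
      have h11 : (m : ℝ) * (1 + K * t ^ β) ≤ m * (1 + p * a₀ / 8 * t) :=
        mul_le_mul_of_nonneg_left (by linarith) hm0
      linarith
    have h11 : m * (t * a₀ / 8) ≤ D * (1 + t * K₁) := by
      have h12 : p * (m * (t * a₀ / 8)) ≤ p * (D * (1 + t * K₁)) := by
        linear_combination h10
      exact le_of_mul_le_mul_left h12 hp0
    have h12 : δ₂ * m ≤ D := by
      rw [hδ₂, div_mul_eq_mul_div, div_le_iff₀ (by positivity)]
      linarith
    have h13 : ∑ k, ‖w k‖ * ‖((a : ℂ) - w k)⁻¹‖ ≤ (1 - δ₂) * m := by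
      rw [hD] at h12
      linarith
    refine h13.trans ?_
    exact mul_le_mul_of_nonneg_right (by linarith [min_le_right μ δ₂]) hm0

end Pool.Agent.H355.BV
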